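import Pool.Agent.H27.HB.TD

/-!
# LIP: the Cayley transform is Lipschitz for the gauge distance
-/

set_option autoImplicit false

namespace Pool.Agent.H36.HB
open MeasureTheory Set Filter Topology Pool.Agent.H80.HS Pool.Agent.H93.HQ Pool.Agent.H27.HB
open scoped ContDiff ENNReal

namespace LIP

variable {n : ℕ}

theorem nu_ww (z : H n) : ‖nu z‖ ^ 2 = ww z := by
  rw [← Complex.normSq_eq_norm_sq, Complex.normSq_apply]
  unfold nu ww
  ring

theorem one_add_le (z : H n) : 1 + sq z ≤ ‖nu z‖ := by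
  have h := Complex.abs_re_le_norm (nu z)
  exact (le_abs_self _).trans h

theorem one_le (z : H n) : 1 ≤ ‖nu z‖ := by
  have := one_add_le z
  have := sq_nonneg' z
  linarith

theorem nu_ne (z : H n) : nu z ≠ 0 := by
  intro h
  have := one_le z
  rw [h, norm_zero] at this
  linarith

theorem N_sq_le (z : H n) : N z ^ 2 ≤ ‖nu z‖ := by
  have h : (N z ^ 2) ^ 2 ≤ ‖nu z‖ ^ 2 := by
    rw [nu_ww]
    have h1 : (N z ^ 2) ^ 2 = N z ^ 4 := by ring
    rw [h1, N_pow_four']
    unfold ww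
    have := sq_nonneg' z
    nlinarith
  exact (pow_le_pow_iff_left₀ (by positivity) (by positivity) (by norm_num)).1 h

theorem N_le (z : H n) : N z ≤ ‖nu z‖ := by
  have h1 := N_sq_le z
  have h2 := one_le z
  nlinarith [sq_nonneg (N z - 1)]

theorem zc_sum (z : H n) : ∑ j, ‖zc j z‖ ^ 2 = sq z := by
  unfold Pool.Agent.H93.HQ.sq
  rw [EuclideanSpace.norm_sq_eq, EuclideanSpace.norm_sq_eq, ← Finset.sum_add_distrib]
  refine Finset.sum_congr rfl fun j _ => ?_
  rw [← Complex.normSq_eq_norm_sq, Complex.normSq_apply]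
  unfold zc
  simp only [Real.norm_eq_abs, sq_abs]
  ring

theorem zc_le (z : H n) (j : Fin n) : ‖zc j z‖ ≤ mz z := by
  have h : ‖zc j z‖ ^ 2 ≤ mz z ^ 2 := by
    rw [mz_sq, ← zc_sum]
    exact Finset.single_le_sum (f := fun j => ‖zc j z‖ ^ 2) (fun i _ => by positivity)
      (Finset.mem_univ j)
  exact (pow_le_pow_iff_left₀ (by positivity) (mz_nonneg z) (by norm_num)).1 h

theorem rz_sq (i : Option (Fin n)) (z : H n) : rz i true z ^ 2 + rz i false z ^ 2 =
    ‖zz i z‖ ^ 2 := by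
  rw [← Complex.normSq_eq_norm_sq, Complex.normSq_apply]
  simp only [rz, if_true, Bool.false_eq_true, if_false]
  ring

theorem rz_sum (z : H n) :
    ∑ i : Option (Fin n), (rz i true z ^ 2 + rz i false z ^ 2) = 1 := by
  simp_rw [rz_sq]
  rw [Fintype.sum_option]
  have h1 : ∀ j, ‖zz (some j) z‖ ^ 2 = 4 * ‖zc j z‖ ^ 2 / ww z := by
    intro j
    rw [zz, norm_div, norm_mul, div_pow, mul_pow, nu_ww]
    norm_num
  have h2 : ‖zz (none : Option (Fin n)) z‖ ^ 2 = ((1 - sq z) ^ 2 + z.2.2 ^ 2) / ww z := by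
    have : zz (none : Option (Fin n)) z = (2 - nu z) / nu z := by
      rw [zz, sub_div, div_self (nu_ne z)]
    rw [this, norm_div, div_pow, nu_ww, ← Complex.normSq_eq_norm_sq, Complex.normSq_apply]
    congr 1
    simp only [nu, Complex.sub_re, Complex.sub_im, Complex.re_ofNat, Complex.im_ofNat]
    ring
  rw [h2]
  simp_rw [h1]
  rw [← Finset.sum_div, ← Finset.mul_sum, zc_sum, ← add_div]
  have h3 : ww z ≠ 0 := by
    rw [← nu_ww]
    have := one_le z
    positivity
  rw [div_eq_one_iff_eq h3]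
  unfold ww
  ring

theorem abs_rz_le_norm (i : Option (Fin n)) (b : Bool) (z : H n) : |rz i b z| ≤ ‖zz i z‖ := by
  unfold rz
  split_ifs
  · exact Complex.abs_re_le_norm _
  · exact Complex.abs_im_le_norm _

theorem zz_le_one (i : Option (Fin n)) (z : H n) : ‖zz i z‖ ≤ 1 := by
  have h : ‖zz i z‖ ^ 2 ≤ 1 := by
    rw [← rz_sum z, ← rz_sq]
    exact Finset.single_le_sum (f := fun i => rz i true z ^ 2 + rz i false z ^ 2)
      (fun i _ => by positivity) (Finset.mem_univ i)
  have := norm_nonneg (zz i z)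
  nlinarith

theorem rz_sub_le (i : Option (Fin n)) (b : Bool) (x y : H n) :
    |rz i b x - rz i b y| ≤ ‖zz i x - zz i y‖ := by
  unfold rz
  split_ifs
  · rw [← Complex.sub_re]
    exact Complex.abs_re_le_norm _
  · rw [← Complex.sub_im]
    exact Complex.abs_im_le_norm _

/-- the group law: `y = x h` -/
theorem mul_self' (x y : H n) : mul x (mul (-x) y) = y := by
  unfold mul
  refine Prod.ext ?_ (Prod.ext ?_ ?_)
  · simp
  · simp
  · simp only [Prod.fst_neg, Prod.snd_neg, inner_neg_left, inner_add_right, inner_neg_right]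
    rw [real_inner_comm x.1 x.2.1]
    ring

theorem inner_le (a b : V n) {A B : ℝ} (ha : ‖a‖ ≤ A) (hb : ‖b‖ ≤ B) (hA : 0 ≤ A) :
    |inner ℝ a b| ≤ A * B :=
  (abs_real_inner_le_norm a b).trans (mul_le_mul ha hb (norm_nonneg _) hA)

theorem fst_le (z : H n) : ‖z.1‖ ≤ mz z := by
  have h : ‖z.1‖ ^ 2 ≤ mz z ^ 2 := by
    rw [mz_sq]
    unfold Pool.Agent.H93.HQ.sq
    nlinarith [sq_nonneg ‖z.2.1‖]
  exact (pow_le_pow_iff_left₀ (by positivity) (mz_nonneg z) (by norm_num)).1 h

theorem snd_le (z : H n) : ‖z.2.1‖ ≤ mz z := by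
  have h : ‖z.2.1‖ ^ 2 ≤ mz z ^ 2 := by
    rw [mz_sq]
    unfold Pool.Agent.H93.HQ.sq
    nlinarith [sq_nonneg ‖z.1‖]
  exact (pow_le_pow_iff_left₀ (by positivity) (mz_nonneg z) (by norm_num)).1 h

theorem t_le (z : H n) : |z.2.2| ≤ N z ^ 2 := by
  have h : |z.2.2| ^ 2 ≤ (N z ^ 2) ^ 2 := by
    have h1 : (N z ^ 2) ^ 2 = N z ^ 4 := by ring
    rw [h1, N_pow_four', sq_abs]
    nlinarith [sq_nonneg (sq z)]
  exact (pow_le_pow_iff_left₀ (abs_nonneg _) (by positivity) (by norm_num)).1 h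

theorem nu_diff (x h : H n) (hN : N h ≤ 1) :
    ‖nu (mul x h) - nu x‖ ≤ N h * (2 + 8 * mz x) := by
  have hre : (nu (mul x h) - nu x).re = sq h + 2 * (inner ℝ h.1 x.1 + inner ℝ h.2.1 x.2.1) := by
    simp only [nu, mul, Complex.sub_re, Pool.Agent.H93.HQ.sq]
    rw [norm_add_sq_real, norm_add_sq_real, real_inner_comm h.1 x.1, real_inner_comm h.2.1 x.2.1]
    ring
  have him : (nu (mul x h) - nu x).im = -h.2.2 - 2 * (inner ℝ x.2.1 h.1 - inner ℝ x.1 h.2.1) := by
    simp only [nu, mul, Complex.sub_im]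
    ring
  have h0 := N_nonneg h
  have hm := mz_nonneg x
  have hmh := mz_le_N h
  have hs : sq h ≤ N h := by
    rw [← mz_sq]
    have := mz_nonneg h
    nlinarith
  have ht : |h.2.2| ≤ N h := by
    have := t_le h
    nlinarith
  have e1 := inner_le h.1 x.1 ((fst_le h).trans hmh) (fst_le x) h0
  have e2 := inner_le h.2.1 x.2.1 ((snd_le h).trans hmh) (snd_le x) h0
  have e3 := inner_le x.2.1 h.1 (snd_le x) ((fst_le h).trans hmh) hm
  have e4 := inner_le x.1 h.2.1 (fst_le x) ((snd_le h).trans hmh) hm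
  have hsn := sq_nonneg' h
  rw [abs_le] at e1 e2 e3 e4 ht
  have r1 : |(nu (mul x h) - nu x).re| ≤ N h * (1 + 4 * mz x) := by
    rw [hre, abs_le]
    constructor <;> nlinarith
  have r2 : |(nu (mul x h) - nu x).im| ≤ N h * (1 + 4 * mz x) := by
    rw [him, abs_le]
    constructor <;> nlinarith
  refine (Complex.norm_le_abs_re_add_abs_im _).trans ?_
  linarith

theorem zc_mul (x h : H n) (j : Fin n) : zc j (mul x h) = zc j x + zc j h := by
  unfold zc mul
  apply Complex.ext <;> simp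

theorem inv_diff (x y : H n) : (nu x)⁻¹ - (nu y)⁻¹ = (nu y - nu x) / (nu x * nu y) := by
  have h1 := nu_ne x
  have h2 := nu_ne y
  field_simp

theorem inv_diff_le (x h : H n) (hN : N h ≤ 1) {c : ℝ} (hc : c ≤ 1 + mz x) :
    c * ‖(nu x)⁻¹ - (nu (mul x h))⁻¹‖ ≤ 20 * N h := by
  rw [inv_diff, norm_div, norm_mul]
  have h1 := nu_diff x h hN
  have h2 := one_add_le x
  have h3 := one_le (mul x h)
  have h0 := N_nonneg h
  have hm := mz_nonneg x
  rw [← mz_sq] at h2
  have h4 : ‖nu x‖ ≤ ‖nu x‖ * ‖nu (mul x h)‖ :=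
    le_mul_of_one_le_right (norm_nonneg _) h3
  have h5 : 0 < ‖nu x‖ * ‖nu (mul x h)‖ := by
    have := one_le x
    positivity
  rw [mul_div_assoc', div_le_iff₀ h5]
  have h6 : c * ‖nu (mul x h) - nu x‖ ≤ (1 + mz x) * (N h * (2 + 8 * mz x)) :=
    mul_le_mul hc h1 (norm_nonneg _) (by linarith)
  have h7 : (1 + mz x) * (N h * (2 + 8 * mz x)) ≤ 20 * N h * (1 + mz x ^ 2) := by
    have h8 : (1 + mz x) * (2 + 8 * mz x) ≤ 20 * (1 + mz x ^ 2) := by
      nlinarith [sq_nonneg (mz x - 1)]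
    calc (1 + mz x) * (N h * (2 + 8 * mz x)) = N h * ((1 + mz x) * (2 + 8 * mz x)) := by ring
      _ ≤ N h * (20 * (1 + mz x ^ 2)) := mul_le_mul_of_nonneg_left h8 h0
      _ = _ := by ring
  have h9 : 20 * N h * (1 + mz x ^ 2) ≤ 20 * N h * (‖nu x‖ * ‖nu (mul x h)‖) :=
    mul_le_mul_of_nonneg_left (h2.trans h4) (by positivity)
  linarith

theorem zz_lip_small (i : Option (Fin n)) (x h : H n) (hN : N h ≤ 1) :
    ‖zz i x - zz i (mul x h)‖ ≤ 50 * N h := by
  have h0 := N_nonneg h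
  have hm := mz_nonneg x
  cases i with
  | none =>
    have e : zz (none : Option (Fin n)) x - zz (none : Option (Fin n)) (mul x h) =
        2 * ((nu x)⁻¹ - (nu (mul x h))⁻¹) := by
      simp only [zz, div_eq_mul_inv]
      ring
    rw [e, norm_mul]
    have := inv_diff_le x h hN (c := 1) (by linarith)
    have h2 : ‖(2 : ℂ)‖ = 2 := by norm_num
    rw [h2]
    linarith
  | some j =>
    have e : zz (some j) x - zz (some j) (mul x h) =
        2 * (zc j x * ((nu x)⁻¹ - (nu (mul x h))⁻¹) - zc j h * (nu (mul x h))⁻¹) := by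
      simp only [zz, div_eq_mul_inv, zc_mul]
      ring
    rw [e, norm_mul]
    have h1 := inv_diff_le x h hN (c := ‖zc j x‖)
      ((zc_le x j).trans (by linarith))
    rw [← norm_mul] at h1
    have h3 : ‖zc j h * (nu (mul x h))⁻¹‖ ≤ N h := by
      rw [norm_mul, norm_inv]
      have h4 := (zc_le h j).trans (mz_le_N h)
      have h5 : ‖nu (mul x h)‖⁻¹ ≤ 1 := inv_le_one_of_one_le₀ (one_le _)
      calc ‖zc j h‖ * ‖nu (mul x h)‖⁻¹ ≤ N h * 1 :=
            mul_le_mul h4 h5 (by positivity) h0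
        _ = N h := mul_one _
    have h2 : ‖(2 : ℂ)‖ = 2 := by norm_num
    rw [h2]
    have h6 := norm_sub_le (zc j x * ((nu x)⁻¹ - (nu (mul x h))⁻¹))
      (zc j h * (nu (mul x h))⁻¹)
    linarith

theorem zz_lip (i : Option (Fin n)) (x h : H n) :
    ‖zz i x - zz i (mul x h)‖ ≤ 50 * N h := by
  rcases le_total (N h) 1 with hN | hN
  · exact zz_lip_small i x h hN
  · have h1 := zz_le_one i x
    have h2 := zz_le_one i (mul x h)
    have h3 := norm_sub_le (zz i x) (zz i (mul x h))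
    linarith

theorem mul_div_le {a N' c m : ℝ} (hm : 0 < m) (h : a * N' ≤ c * m) : a / m * N' ≤ c := by
  rw [div_mul_eq_mul_div, div_le_iff₀ hm]
  exact h

end LIP

open LIP

theorem pf_LIP : T_LIP := by
  intro n
  refine ⟨50, by norm_num, rz_sum, ?_, ?_⟩
  · intro x y i b
    have h := zz_lip i x (mul (-x) y)
    rw [mul_self'] at h
    exact (rz_sub_le i b x y).trans h
  · intro x
    have h1 := one_le x
    have hp : 0 < ‖nu x‖ := by linarith
    have hN := N_nonneg x
    have h2 : ‖(2 : ℂ)‖ = 2 := by norm_num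
    have e0 : ‖(2 : ℂ) / nu x‖ * N x ≤ 2 := by
      rw [norm_div, h2]
      exact mul_div_le hp (by have := N_le x; linarith)
    refine ⟨?_, ?_, ?_⟩
    · have e : rz none true x + 1 = (2 / nu x).re := by
        simp only [rz, if_true, zz, Complex.sub_re, Complex.one_re]
        ring
      rw [e]
      have := mul_le_mul_of_nonneg_right (Complex.abs_re_le_norm (2 / nu x)) hN
      linarith
    · have e : rz none false x = (2 / nu x).im := by
        simp only [rz, Bool.false_eq_true, if_false, zz, Complex.sub_im, Complex.one_im]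
        ring
      rw [e]
      have := mul_le_mul_of_nonneg_right (Complex.abs_im_le_norm (2 / nu x)) hN
      linarith
    · intro j b
      have e1 : ‖zz (some j) x‖ * N x ≤ 2 := by
        rw [zz, norm_div, norm_mul, h2]
        refine mul_div_le hp ?_
        have h3 := (zc_le x j).trans (mz_le_N x)
        have h4 := N_sq_le x
        have h5 : ‖zc j x‖ * N x ≤ N x * N x := mul_le_mul_of_nonneg_right h3 hN
        nlinarith
      have := mul_le_mul_of_nonneg_right (abs_rz_le_norm (some j) b x) hN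
      linarith

end Pool.Agent.H36.HB
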