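import Pool.Agent.H27.HB.TA
import Pool.Agent.H27.HB.TD

/-!
# LSC: lower semicontinuity of the energy as `p → 2`
-/

set_option autoImplicit false

namespace Pool.Agent.H36.HB
open MeasureTheory Set Filter Topology Pool.Agent.H80.HS Pool.Agent.H93.HQ Pool.Agent.H27.HB
open scoped ContDiff ENNReal

variable {n : ℕ}

/-- the divergence of a test field -/
noncomputable def dv (ψ : Fin n ⊕ Fin n → H n → ℝ) (z : H n) : ℝ :=
  ∑ j, (X (ψ (Sum.inl j)) j z + Y (ψ (Sum.inr j)) j z)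

/-- the test field as a vector -/
noncomputable def vf (ψ : Fin n ⊕ Fin n → H n → ℝ) (z : H n) : G n := WithLp.toLp 2 fun i => ψ i z

theorem cs_pow {F : H n → ℝ} (hc : Continuous F) (hs : HasCompactSupport F) {q : ℝ} (hq : 0 < q) :
    Integrable (fun z => |F z| ^ q) := by
  refine Continuous.integrable_of_hasCompactSupport ?_ ?_
  · exact (continuous_abs.comp hc).rpow_const fun z => Or.inr hq.le
  · refine HasCompactSupport.intro hs fun z hz => ?_
    rw [image_eq_zero_of_notMem_tsupport hz, abs_zero, Real.zero_rpow hq.ne']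

theorem vf_cont {ψ : Fin n ⊕ Fin n → H n → ℝ} (hψ : ∀ i, Tst (ψ i)) : Continuous (vf ψ) := by
  have h1 : ∀ i, Continuous (ψ i) := fun i => (hψ i).1.continuous
  unfold vf
  fun_prop

theorem vf_cs {ψ : Fin n ⊕ Fin n → H n → ℝ} (hψ : ∀ i, Tst (ψ i)) :
    HasCompactSupport (vf ψ) := by
  refine HasCompactSupport.intro (K := ⋃ i, tsupport (ψ i))
    (isCompact_iUnion fun i => (hψ i).2) fun z hz => ?_
  have h1 : ∀ i, ψ i z = 0 := fun i =>
    image_eq_zero_of_notMem_tsupport fun h => hz (mem_iUnion.2 ⟨i, h⟩)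
  unfold vf
  have : (fun i => ψ i z) = 0 := funext h1
  rw [this]
  exact WithLp.toLp_zero 2

theorem vf_sq (ψ : Fin n ⊕ Fin n → H n → ℝ) (z : H n) : ‖vf ψ z‖ ^ 2 = ∑ i, ψ i z ^ 2 := by
  rw [EuclideanSpace.real_norm_sq_eq]
  rfl

theorem X_cont {φ : H n → ℝ} (hφ : Tst φ) (j : Fin n) : Continuous (X φ j) := by
  have h1 : Continuous (fderiv ℝ φ) := hφ.1.continuous_fderiv (by norm_num)
  unfold X
  fun_prop

theorem Y_cont {φ : H n → ℝ} (hφ : Tst φ) (j : Fin n) : Continuous (Y φ j) := by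
  have h1 : Continuous (fderiv ℝ φ) := hφ.1.continuous_fderiv (by norm_num)
  unfold Y
  fun_prop

theorem fd_zero {φ : H n → ℝ} {z : H n} (hz : z ∉ tsupport φ) : fderiv ℝ φ z = 0 :=
  image_eq_zero_of_notMem_tsupport fun h => hz (tsupport_fderiv_subset ℝ h)

theorem X_zero {φ : H n → ℝ} {z : H n} (hz : z ∉ tsupport φ) (j : Fin n) : X φ j z = 0 := by
  unfold X
  rw [fd_zero hz]
  rfl

theorem Y_zero {φ : H n → ℝ} {z : H n} (hz : z ∉ tsupport φ) (j : Fin n) : Y φ j z = 0 := by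
  unfold Y
  rw [fd_zero hz]
  rfl

theorem dv_cont {ψ : Fin n ⊕ Fin n → H n → ℝ} (hψ : ∀ i, Tst (ψ i)) : Continuous (dv ψ) := by
  unfold dv
  exact continuous_finsetSum _ fun j _ => (X_cont (hψ _) j).add (Y_cont (hψ _) j)

theorem dv_cs {ψ : Fin n ⊕ Fin n → H n → ℝ} (hψ : ∀ i, Tst (ψ i)) :
    HasCompactSupport (dv ψ) := by
  refine HasCompactSupport.intro (K := ⋃ i, tsupport (ψ i))
    (isCompact_iUnion fun i => (hψ i).2) fun z hz => ?_
  have h1 : ∀ i, z ∉ tsupport (ψ i) := fun i h => hz (mem_iUnion.2 ⟨i, h⟩)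
  unfold dv
  refine Finset.sum_eq_zero fun j _ => ?_
  rw [X_zero (h1 _), Y_zero (h1 _), add_zero]

/-- integration by parts, real functions -/
theorem ibp_real (hIBP : T_IBP) {φ ψ : H n → ℝ} (hφ : Tst φ) (hψ : Tst ψ) (j : Fin n) :
    ∫ z, X φ j z * ψ z = - ∫ z, φ z * X ψ j z ∧ ∫ z, Y φ j z * ψ z = - ∫ z, φ z * Y ψ j z := by
  have hF : ContDiff ℝ 1 (fun z => (ψ z : ℂ)) :=
    (Complex.ofRealCLM.contDiff.comp hψ.1).of_le (by exact_mod_cast le_top)
  have hd : ∀ z, HasFDerivAt (fun z => (ψ z : ℂ)) (Complex.ofRealCLM.comp (fderiv ℝ ψ z)) z :=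
    fun z => Complex.ofRealCLM.hasFDerivAt.comp z
      ((hψ.1.differentiable (by norm_num)) z).hasFDerivAt
  have hX : ∀ z, X (fun z => (ψ z : ℂ)) j z = ((X ψ j z : ℝ) : ℂ) := by
    intro z
    unfold X
    rw [(hd z).fderiv]
    rfl
  have hY : ∀ z, Y (fun z => (ψ z : ℂ)) j z = ((Y ψ j z : ℝ) : ℂ) := by
    intro z
    unfold Y
    rw [(hd z).fderiv]
    rfl
  obtain ⟨h1, h2⟩ := hIBP n φ (fun z => (ψ z : ℂ)) j hφ hF
  constructor
  · have e1 : ∫ z, ((X φ j z : ℝ) : ℂ) * (ψ z : ℂ) = ((∫ z, X φ j z * ψ z : ℝ) : ℂ) := by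
      rw [← integral_complex_ofReal]
      refine integral_congr_ae (Eventually.of_forall fun z => ?_)
      push_cast
      rfl
    have e2 : ∫ z, ((φ z : ℝ) : ℂ) * X (fun z => (ψ z : ℂ)) j z =
        ((∫ z, φ z * X ψ j z : ℝ) : ℂ) := by
      rw [← integral_complex_ofReal]
      refine integral_congr_ae (Eventually.of_forall fun z => ?_)
      simp only [hX]
      push_cast
      rfl
    rw [e1, e2] at h1
    exact_mod_cast h1
  · have e1 : ∫ z, ((Y φ j z : ℝ) : ℂ) * (ψ z : ℂ) = ((∫ z, Y φ j z * ψ z : ℝ) : ℂ) := by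
      rw [← integral_complex_ofReal]
      refine integral_congr_ae (Eventually.of_forall fun z => ?_)
      push_cast
      rfl
    have e2 : ∫ z, ((φ z : ℝ) : ℂ) * Y (fun z => (ψ z : ℂ)) j z =
        ((∫ z, φ z * Y ψ j z : ℝ) : ℂ) := by
      rw [← integral_complex_ofReal]
      refine integral_congr_ae (Eventually.of_forall fun z => ?_)
      simp only [hY]
      push_cast
      rfl
    rw [e1, e2] at h2
    exact_mod_cast h2

/-- the product of two test type functions is integrable -/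
theorem int_mul {f g : H n → ℝ} (hf : Continuous f) (hg : Continuous g)
    (hs : HasCompactSupport f) : Integrable (fun z => f z * g z) :=
  (hf.mul hg).integrable_of_hasCompactSupport hs.mul_right

/-- integration by parts against the divergence -/
theorem ibp_dv (hIBP : T_IBP) {φ : H n → ℝ} (hφ : Tst φ) {ψ : Fin n ⊕ Fin n → H n → ℝ}
    (hψ : ∀ i, Tst (ψ i)) :
    ∫ z, φ z * dv ψ z = - ∫ z, ∑ i, hg φ z i * ψ i z := by
  have hc := hφ.1.continuous
  have e1 : ∀ z, φ z * dv ψ z =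
      ∑ j, (φ z * X (ψ (Sum.inl j)) j z + φ z * Y (ψ (Sum.inr j)) j z) := by
    intro z
    unfold dv
    rw [Finset.mul_sum]
    refine Finset.sum_congr rfl fun j _ => ?_
    rw [mul_add]
  have e2 : ∀ z, ∑ i, hg φ z i * ψ i z =
      ∑ j, (X φ j z * ψ (Sum.inl j) z + Y φ j z * ψ (Sum.inr j) z) := by
    intro z
    rw [Fintype.sum_sum_type, ← Finset.sum_add_distrib]
    rfl
  have i1 : ∀ j : Fin n, Integrable fun z => φ z * X (ψ (Sum.inl j)) j z := fun j =>
    int_mul hc (X_cont (hψ _) j) hφ.2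
  have i2 : ∀ j : Fin n, Integrable fun z => φ z * Y (ψ (Sum.inr j)) j z := fun j =>
    int_mul hc (Y_cont (hψ _) j) hφ.2
  have i3 : ∀ j : Fin n, Integrable fun z => X φ j z * ψ (Sum.inl j) z := fun j => by
    have := int_mul (hψ (Sum.inl j)).1.continuous (X_cont hφ j) (hψ _).2
    simpa only [mul_comm] using this
  have i4 : ∀ j : Fin n, Integrable fun z => Y φ j z * ψ (Sum.inr j) z := fun j => by
    have := int_mul (hψ (Sum.inr j)).1.continuous (Y_cont hφ j) (hψ _).2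
    simpa only [mul_comm] using this
  have i12 : ∀ j : Fin n, Integrable fun z =>
      φ z * X (ψ (Sum.inl j)) j z + φ z * Y (ψ (Sum.inr j)) j z := fun j => (i1 j).add (i2 j)
  have i34 : ∀ j : Fin n, Integrable fun z =>
      X φ j z * ψ (Sum.inl j) z + Y φ j z * ψ (Sum.inr j) z := fun j => (i3 j).add (i4 j)
  rw [integral_congr_ae (Eventually.of_forall e1), integral_congr_ae (Eventually.of_forall e2),
    integral_finsetSum _ fun j _ => i12 j, integral_finsetSum _ fun j _ => i34 j,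
    ← Finset.sum_neg_distrib]
  refine Finset.sum_congr rfl fun j _ => ?_
  rw [integral_add (i1 j) (i2 j), integral_add (i3 j) (i4 j),
    (ibp_real hIBP hφ (hψ (Sum.inl j)) j).1, (ibp_real hIBP hφ (hψ (Sum.inr j)) j).2]
  ring

/-- the bound of the pairing -/
theorem pair_bound (hHGC : T_HGC) {φ : H n → ℝ} (hφ : Tst φ) {ψ : Fin n ⊕ Fin n → H n → ℝ}
    (hψ : ∀ i, Tst (ψ i)) {p : ℝ} (hp : 1 < p) :
    |∫ z, ∑ i, hg φ z i * ψ i z| ≤
      en p (hg φ) ^ (1 / p) * (∫ z, ‖vf ψ z‖ ^ (p / (p - 1))) ^ (1 / (p / (p - 1))) := by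
  obtain ⟨hc, -, -, hs⟩ := hHGC n φ
  have hc' := hc (hφ.1.of_le (by exact_mod_cast le_top))
  have hs' := hs hφ.2
  have hpq : p.HolderConjugate (p / (p - 1)) := Real.HolderConjugate.conjExponent hp
  have h1 := integral_mul_norm_le_Lp_mul_Lq (μ := (volume : Measure (H n))) hpq
    (hc'.memLp_of_hasCompactSupport hs') ((vf_cont hψ).memLp_of_hasCompactSupport (vf_cs hψ))
  refine le_trans ?_ h1
  refine (abs_integral_le_integral_abs).trans ?_
  refine integral_mono_of_nonneg (Eventually.of_forall fun z => abs_nonneg _) ?_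
    (Eventually.of_forall fun z => ?_)
  · exact (hc'.norm.mul (vf_cont hψ).norm).integrable_of_hasCompactSupport hs'.norm.mul_right
  · have h2 := abs_real_inner_le_norm (vf ψ z) (hg φ z)
    rw [PiLp.inner_apply] at h2
    show |∑ i, hg φ z i * ψ i z| ≤ ‖hg φ z‖ * ‖vf ψ z‖
    rw [mul_comm ‖hg φ z‖]
    exact h2

theorem ps_tend (hn : 1 ≤ n) {p : ℕ → ℝ} (hp : Tendsto p atTop (𝓝 2)) :
    Tendsto (fun k => ps n (p k)) atTop (𝓝 (ps n 2)) := by
  have hn0 : (0 : ℝ) < n := by exact_mod_cast hn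
  unfold ps
  refine Tendsto.div (tendsto_const_nhds.mul hp) (tendsto_const_nhds.sub hp) ?_
  have : (2 * (n : ℝ) + 2 - 2) = 2 * n := by ring
  rw [this]
  positivity

theorem ps_two (hn : 1 ≤ n) : 2 < ps n 2 := by
  have hn0 : (0 : ℝ) < n := by exact_mod_cast hn
  unfold ps
  rw [lt_div_iff₀ (by linarith)]
  linarith

theorem ps_pos (hn : 1 ≤ n) {p : ℝ} (h1 : 1 < p) (h2 : p < 2 * n + 2) : 0 < ps n p := by
  have hn0 : (0 : ℝ) < n := by exact_mod_cast hn
  unfold ps
  have h3 : 0 < 2 * (n : ℝ) + 2 - p := by linarith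
  positivity

/-- the limit is in `L^(2*)` -/
theorem mem_u (hn : 1 ≤ n) {p : ℕ → ℝ} {C : ℝ} {φ : ℕ → H n → ℝ} {u : H n → ℝ}
    (hp1 : ∀ k, 1 < p k ∧ p k < 2 * n + 2) (hp : Tendsto p atTop (𝓝 2))
    (hφ : ∀ k, Tst (φ k)) (hu : AEStronglyMeasurable u volume)
    (hae : ∀ᵐ z, Tendsto (fun k => φ k z) atTop (𝓝 (u z)))
    (hC : ∀ k, ms (ps n (p k)) (φ k) ≤ C) : MemLp u (ENNReal.ofReal (ps n 2)) := by
  have hQ : 0 < ps n 2 := by linarith [ps_two hn]
  have h1 : ∀ k, ∫⁻ z, ENNReal.ofReal (|φ k z| ^ ps n (p k)) ≤ ENNReal.ofReal C := by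
    intro k
    rw [← ofReal_integral_eq_lintegral_ofReal
      (cs_pow (hφ k).1.continuous (hφ k).2 (ps_pos hn (hp1 k).1 (hp1 k).2))
      (Eventually.of_forall fun z => Real.rpow_nonneg (abs_nonneg _) _)]
    exact ENNReal.ofReal_le_ofReal (hC k)
  have h2 : ∀ᵐ z, liminf (fun k => ENNReal.ofReal (|φ k z| ^ ps n (p k))) atTop =
      ENNReal.ofReal (|u z| ^ ps n 2) := by
    refine hae.mono fun z hz => ?_
    have h3 : Tendsto (fun k => |φ k z| ^ ps n (p k)) atTop (𝓝 (|u z| ^ ps n 2)) :=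
      Tendsto.rpow hz.abs (ps_tend hn hp) (Or.inr hQ)
    exact (ENNReal.tendsto_ofReal h3).liminf_eq
  have h3 : ∫⁻ z, ENNReal.ofReal (|u z| ^ ps n 2) ≤ ENNReal.ofReal C := by
    rw [← lintegral_congr_ae h2]
    refine (lintegral_liminf_le fun k => ?_).trans ?_
    · refine ENNReal.measurable_ofReal.comp (Continuous.measurable ?_)
      exact (continuous_abs.comp (hφ k).1.continuous).rpow_const fun z =>
        Or.inr (ps_pos hn (hp1 k).1 (hp1 k).2).le
    · refine (liminf_le_liminf (Eventually.of_forall h1)).trans ?_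
      rw [liminf_const]
  refine ⟨hu, ?_⟩
  rw [eLpNorm_lt_top_iff_lintegral_rpow_enorm_lt_top (by simpa using hQ) ENNReal.ofReal_ne_top,
    ENNReal.toReal_ofReal hQ.le]
  have h4 : ∀ z, ‖u z‖ₑ ^ ps n 2 = ENNReal.ofReal (|u z| ^ ps n 2) := by
    intro z
    rw [Real.enorm_eq_ofReal_abs, ENNReal.ofReal_rpow_of_nonneg (abs_nonneg _) hQ.le]
  rw [lintegral_congr h4]
  exact lt_of_le_of_lt h3 ENNReal.ofReal_lt_top

/-- convergence of the pairing with a continuous function with compact support -/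
theorem conv_pair (hVIT : T_VIT) (hn : 1 ≤ n) {p : ℕ → ℝ} {C : ℝ} {φ : ℕ → H n → ℝ}
    {u : H n → ℝ} (hp1 : ∀ k, 1 < p k ∧ p k < 2 * n + 2) (hp : Tendsto p atTop (𝓝 2))
    (hφ : ∀ k, Tst (φ k)) (hae : ∀ᵐ z, Tendsto (fun k => φ k z) atTop (𝓝 (u z)))
    (hC : ∀ k, ms (ps n (p k)) (φ k) ≤ C) {D : H n → ℝ} (hD : Continuous D)
    (hDs : HasCompactSupport D) :
    Tendsto (fun k => ∫ z, φ k z * D z) atTop (𝓝 (∫ z, u z * D z)) := by
  refine (hVIT n (fun k z => φ k z * D z) (fun z => u z * D z)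
    (fun k => ((hφ k).1.continuous.mul hD).aestronglyMeasurable)
    (hae.mono fun z hz => hz.mul_const _) fun η hη => ?_).2.2
  obtain ⟨B, hB⟩ := hD.bounded_above_of_compact_support hDs
  obtain ⟨R, hR⟩ := (show IsCompact (tsupport D) from hDs).exists_bound_of_continuousOn
    (continuous_N (n := n)).continuousOn
  set B' := max B 1 with hB'
  set C' := max C 0 with hC'
  set Q := ps n 2 with hQdef
  have hQ := ps_two hn
  set M := max 1 (B' ^ (Q + 1) * C' / η) with hM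
  have hM1 : 1 ≤ M := le_max_left _ _
  have hB1 : 1 ≤ B' := le_max_right _ _
  have hC0 : 0 ≤ C' := le_max_right _ _
  have hBQ : 0 < B' ^ (Q + 1) := Real.rpow_pos_of_pos (by linarith) _
  refine ⟨M, R, ?_⟩
  have e1 : ∀ᶠ k in atTop, 2 < ps n (p k) := (ps_tend hn hp).eventually (lt_mem_nhds hQ)
  have e2 : ∀ᶠ k in atTop, ps n (p k) < Q + 1 :=
    (ps_tend hn hp).eventually (gt_mem_nhds (by linarith))
  filter_upwards [e1, e2] with k hk1 hk2
  set q := ps n (p k) with hq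
  have hq0 : 0 < q := by linarith
  have hint : Integrable (fun z => φ k z * D z) := int_mul (hφ k).1.continuous hD (hφ k).2
  refine ⟨hint, ?_⟩
  have hpw : Integrable (fun z => M⁻¹ * (B' ^ (Q + 1) * |φ k z| ^ q)) :=
    ((cs_pow (hφ k).1.continuous (hφ k).2 hq0).const_mul _).const_mul _
  have hnn : ∀ z, 0 ≤ M⁻¹ * (B' ^ (Q + 1) * |φ k z| ^ q) := fun z => by
    have := Real.rpow_nonneg (abs_nonneg (φ k z)) q
    positivity
  have hS : MeasurableSet {z : H n | M < |φ k z * D z| ∨ R < N z} := by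
    refine MeasurableSet.union ?_ ?_
    · exact measurableSet_lt measurable_const
        (((hφ k).1.continuous.mul hD).abs.measurable)
    · exact measurableSet_lt measurable_const (continuous_N (n := n)).measurable
  have h1 : ∫ z in {z : H n | M < |φ k z * D z| ∨ R < N z}, |φ k z * D z| ≤
      ∫ z in {z : H n | M < |φ k z * D z| ∨ R < N z}, M⁻¹ * (B' ^ (Q + 1) * |φ k z| ^ q) := by
    refine setIntegral_mono_on hint.abs.integrableOn hpw.integrableOn hS fun z hz => ?_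
    rcases hz with hz | hz
    · have hF1 : 1 ≤ |φ k z * D z| := by linarith
      have h2 : M * |φ k z * D z| ≤ |φ k z * D z| ^ q := by
        have h3 : |φ k z * D z| ^ (2 : ℝ) ≤ |φ k z * D z| ^ q :=
          Real.rpow_le_rpow_of_exponent_le hF1 hk1.le
        rw [Real.rpow_two, pow_two] at h3
        have h4 : M * |φ k z * D z| ≤ |φ k z * D z| * |φ k z * D z| :=
          mul_le_mul_of_nonneg_right hz.le (abs_nonneg _)
        linarith
      have h5 : |φ k z * D z| ^ q ≤ B' ^ (Q + 1) * |φ k z| ^ q := by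
        rw [abs_mul, Real.mul_rpow (abs_nonneg _) (abs_nonneg _), mul_comm]
        refine mul_le_mul_of_nonneg_right ?_ (Real.rpow_nonneg (abs_nonneg _) _)
        have h6 : |D z| ≤ B' := (hB z).trans (le_max_left _ _)
        exact (Real.rpow_le_rpow (abs_nonneg _) h6 hq0.le).trans
          (Real.rpow_le_rpow_of_exponent_le hB1 hk2.le)
      rw [inv_mul_eq_div, le_div_iff₀ (by linarith)]
      linarith
    · have h2 : z ∉ tsupport D := fun h => by
        have := hR z h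
        rw [Real.norm_eq_abs, abs_of_nonneg (N_nonneg z)] at this
        exact absurd hz (not_lt.2 this)
      rw [image_eq_zero_of_notMem_tsupport h2, mul_zero, abs_zero]
      exact hnn z
  have h2 : ∫ z in {z : H n | M < |φ k z * D z| ∨ R < N z},
      M⁻¹ * (B' ^ (Q + 1) * |φ k z| ^ q) ≤ ∫ z, M⁻¹ * (B' ^ (Q + 1) * |φ k z| ^ q) :=
    setIntegral_le_integral hpw (Eventually.of_forall hnn)
  have h3 : ∫ z, M⁻¹ * (B' ^ (Q + 1) * |φ k z| ^ q) ≤ η := by
    rw [integral_const_mul, integral_const_mul]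
    have h4 : ∫ z, |φ k z| ^ q ≤ C' := (hC k).trans (le_max_left _ _)
    have h5 : B' ^ (Q + 1) * C' ≤ η * M := by
      have := le_max_right 1 (B' ^ (Q + 1) * C' / η)
      rw [div_le_iff₀ hη] at this
      linarith
    rw [inv_mul_le_iff₀ (by linarith)]
    have h6 : B' ^ (Q + 1) * ∫ z, |φ k z| ^ q ≤ B' ^ (Q + 1) * C' :=
      mul_le_mul_of_nonneg_left h4 hBQ.le
    linarith
  exact h1.trans (h2.trans h3)

/-- convergence of the integrals of powers -/
theorem pow_tend {ψ : Fin n ⊕ Fin n → H n → ℝ} (hψ : ∀ i, Tst (ψ i)) {q : ℕ → ℝ}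
    (hq : Tendsto q atTop (𝓝 2)) :
    Tendsto (fun k => ∫ z, ‖vf ψ z‖ ^ q k) atTop (𝓝 (∫ z, ∑ i, ψ i z ^ 2)) := by
  have hc := vf_cont hψ
  have hs := vf_cs hψ
  have e1 : ∀ᶠ k in atTop, 1 < q k := hq.eventually (lt_mem_nhds (by norm_num))
  have e2 : ∀ᶠ k in atTop, q k < 3 := hq.eventually (gt_mem_nhds (by norm_num))
  refine tendsto_integral_filter_of_dominated_convergence (fun z => ‖vf ψ z‖ + ‖vf ψ z‖ ^ 3)
    ?_ ?_ ?_ ?_
  · filter_upwards [e1] with k hk
    exact (hc.norm.rpow_const fun z => Or.inr (by linarith)).aestronglyMeasurable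
  · filter_upwards [e1, e2] with k hk1 hk2
    refine Eventually.of_forall fun z => ?_
    have h0 : 0 ≤ ‖vf ψ z‖ := norm_nonneg _
    rw [Real.norm_eq_abs, abs_of_nonneg (Real.rpow_nonneg h0 _)]
    rcases le_total ‖vf ψ z‖ 1 with h | h
    · have h1 := Real.rpow_le_rpow_of_exponent_ge' h0 h zero_le_one hk1.le
      rw [Real.rpow_one] at h1
      have : 0 ≤ ‖vf ψ z‖ ^ 3 := pow_nonneg h0 3
      linarith
    · have h1 := Real.rpow_le_rpow_of_exponent_le h hk2.le
      have h2 : ‖vf ψ z‖ ^ (3 : ℝ) = ‖vf ψ z‖ ^ 3 := by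
        rw [← Real.rpow_natCast]
        norm_num
      rw [h2] at h1
      linarith
  · refine Continuous.integrable_of_hasCompactSupport (by fun_prop) ?_
    refine HasCompactSupport.intro hs fun z hz => ?_
    rw [image_eq_zero_of_notMem_tsupport hz, norm_zero]
    norm_num
  · refine Eventually.of_forall fun z => ?_
    rw [← vf_sq, ← Real.rpow_two]
    exact Tendsto.rpow tendsto_const_nhds hq (Or.inr (by norm_num))

theorem pf_LSC (hRIE : T_RIE) (hMOL : T_MOL) (hIBP : T_IBP) (hHGC : T_HGC) (hVIT : T_VIT) :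
    T_LSC := by
  intro n hn p A A' C φ u hp1 hp hA hφ hu hae hC hen
  have hmu := mem_u hn hp1 hp hφ hu hae hC
  have hen0 : ∀ k, 0 ≤ en (p k) (hg (φ k)) := fun k =>
    integral_nonneg fun z => Real.rpow_nonneg (norm_nonneg _) _
  have hA0 : 0 ≤ A' := ge_of_tendsto' hA fun k => (hen0 k).trans (hen k)
  have hQ := ps_two hn
  have hloc : LocallyIntegrable u volume := hmu.locallyIntegrable (by
    rw [← ENNReal.ofReal_one]
    exact ENNReal.ofReal_le_ofReal (by linarith))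
  have key : ∀ ψ : Fin n ⊕ Fin n → H n → ℝ, (∀ i, Tst (ψ i)) →
      |∫ z, u z * (∑ j, (X (ψ (Sum.inl j)) j z + Y (ψ (Sum.inr j)) j z))| ^ 2 ≤
        A' * ∫ z, ∑ i, ψ i z ^ 2 := by
    intro ψ hψ
    set I := ∫ z, ∑ i, ψ i z ^ 2 with hI
    have hI0 : 0 ≤ I := integral_nonneg fun z => Finset.sum_nonneg fun i _ => pow_two_nonneg _
    have h1 := conv_pair hVIT hn hp1 hp hφ hae hC (dv_cont hψ) (dv_cs hψ)
    have hq : Tendsto (fun k => p k / (p k - 1)) atTop (𝓝 2) := by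
      have h2 : Tendsto (fun k => p k / (p k - 1)) atTop (𝓝 (2 / (2 - 1))) :=
        hp.div (hp.sub tendsto_const_nhds) (by norm_num)
      norm_num at h2
      exact h2
    have h2 : Tendsto (fun k => A k ^ (1 / p k) *
        (∫ z, ‖vf ψ z‖ ^ (p k / (p k - 1))) ^ (1 / (p k / (p k - 1)))) atTop
        (𝓝 (A' ^ ((1 : ℝ) / 2) * I ^ ((1 : ℝ) / 2))) := by
      refine Tendsto.mul ?_ ?_
      · exact Tendsto.rpow hA (tendsto_const_nhds.div hp (by norm_num)) (Or.inr (by norm_num))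
      · exact Tendsto.rpow (pow_tend hψ hq) (tendsto_const_nhds.div hq (by norm_num))
          (Or.inr (by norm_num))
    have h3 : |∫ z, u z * dv ψ z| ≤ A' ^ ((1 : ℝ) / 2) * I ^ ((1 : ℝ) / 2) := by
      refine le_of_tendsto_of_tendsto' h1.abs h2 fun k => ?_
      rw [ibp_dv hIBP (hφ k) hψ, abs_neg]
      refine (pair_bound hHGC (hφ k) hψ (hp1 k).1).trans ?_
      refine mul_le_mul_of_nonneg_right ?_ (Real.rpow_nonneg
        (integral_nonneg fun z => Real.rpow_nonneg (norm_nonneg _) _) _)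
      exact Real.rpow_le_rpow (hen0 k) (hen k) (by
        have := (hp1 k).1
        positivity)
    have h4 := pow_le_pow_left₀ (abs_nonneg _) h3 2
    have h5 : (A' ^ ((1 : ℝ) / 2) * I ^ ((1 : ℝ) / 2)) ^ 2 = A' * I := by
      rw [mul_pow, ← Real.rpow_natCast, ← Real.rpow_natCast, ← Real.rpow_mul hA0,
        ← Real.rpow_mul hI0]
      norm_num
    rw [h5] at h4
    exact h4
  obtain ⟨g, hg2, hgA, hid⟩ := hRIE n hn u A' hA0 hloc key
  exact ⟨g, hMOL n hn u g hmu hg2 hid, hgA⟩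

end Pool.Agent.H36.HB
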