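import Pool.Agent.H27.HB.TA

/-!
# OPT: existence and local bounds of the optimal constant
-/

set_option autoImplicit false

namespace Pool.Agent.H36.HB
open MeasureTheory Set Filter Topology Pool.Agent.H80.HS Pool.Agent.H93.HQ Pool.Agent.H27.HB
open scoped ContDiff ENNReal

theorem pf_OPT (hFI : Pool.Agent.H93.HQ.U_FI) : T_OPT := by
  obtain ⟨A, hA⟩ := hFI
  intro n hn a b ha hab hb
  have hn0 : (0 : ℝ) < n := by exact_mod_cast hn
  set f : ℝ → ℝ := fun p => ((n : ℝ) / (Real.pi * Real.exp 1)) ^ (p / 2) * p ^ p /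
      ((2 * n + 2) * (2 * n + 2 - p) ^ (p - 1)) with hf
  have hb0 : 0 < (n : ℝ) / (Real.pi * Real.exp 1) :=
    div_pos hn0 (mul_pos Real.pi_pos (Real.exp_pos 1))
  have hpos : ∀ p ∈ Icc a b, 0 < f p := by
    intro p hp
    have h1 : 0 < p := by linarith [hp.1]
    have h2 : 0 < 2 * (n : ℝ) + 2 - p := by linarith [hp.2]
    have h3 : 0 < ((n : ℝ) / (Real.pi * Real.exp 1)) ^ (p / 2) := Real.rpow_pos_of_pos hb0 _
    have h4 : 0 < p ^ p := Real.rpow_pos_of_pos h1 _
    have h5 : 0 < (2 * (n : ℝ) + 2 - p) ^ (p - 1) := Real.rpow_pos_of_pos h2 _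
    show 0 < ((n : ℝ) / (Real.pi * Real.exp 1)) ^ (p / 2) * p ^ p /
      ((2 * n + 2) * (2 * n + 2 - p) ^ (p - 1))
    positivity
  have hcont : ContinuousOn f (Icc a b) := by
    refine ContinuousOn.div (ContinuousOn.mul ?_ ?_) (ContinuousOn.mul continuousOn_const ?_) ?_
    · exact ContinuousOn.rpow continuousOn_const (by fun_prop) fun p _ => Or.inl hb0.ne'
    · refine ContinuousOn.rpow continuousOn_id continuousOn_id fun p hp => Or.inl ?_
      have : 0 < p := by linarith [hp.1]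
      exact this.ne'
    · refine ContinuousOn.rpow (by fun_prop) (by fun_prop) fun p hp => Or.inl ?_
      have : 0 < 2 * (n : ℝ) + 2 - p := by linarith [hp.2]
      exact this.ne'
    · intro p hp
      have h2 : 0 < 2 * (n : ℝ) + 2 - p := by linarith [hp.2]
      have h5 : 0 < (2 * (n : ℝ) + 2 - p) ^ (p - 1) := Real.rpow_pos_of_pos h2 _
      have h6 : 0 < 2 * (n : ℝ) + 2 := by positivity
      exact (mul_pos h6 h5).ne'
  obtain ⟨p₁, hp₁, hmin⟩ := (isCompact_Icc (a := a) (b := b)).exists_isMinOn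
    (nonempty_Icc.2 hab) hcont
  obtain ⟨p₂, hp₂, hmax⟩ := (isCompact_Icc (a := a) (b := b)).exists_isMaxOn
    (nonempty_Icc.2 hab) hcont
  have hlog : 0 ≤ Real.log (n + 1) := Real.log_nonneg (by linarith)
  set K : ℝ := |A| * b * Real.log (n + 1) / n with hK
  have hf1 := hpos p₁ hp₁
  have hf2 := hpos p₂ hp₂
  have key : ∀ p, a ≤ p → p ≤ b → ∃ C : ℝ, 0 < C ∧
      IsLeast {C : ℝ | SobolevIneq ℝ n p C} C ∧ f p₁ * Real.exp (-K) ≤ C ∧
        C ≤ f p₂ * Real.exp K := by
    intro p hpa hpb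
    obtain ⟨C, hC, hleast, hlogC⟩ := hA n hn p (by linarith) (by linarith) ℝ
    have hfp := hpos p ⟨hpa, hpb⟩
    have h1 : |Real.log C - Real.log (f p)| ≤ K := by
      refine le_trans hlogC ?_
      rw [hK]
      refine div_le_div_of_nonneg_right ?_ hn0.le
      refine mul_le_mul_of_nonneg_right ?_ hlog
      exact mul_le_mul (le_abs_self A) hpb (by linarith) (abs_nonneg A)
    obtain ⟨h2, h3⟩ := abs_le.1 h1
    refine ⟨C, hC, hleast, ?_, ?_⟩
    · have h4 : f p * Real.exp (-K) ≤ C := by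
        rw [← Real.exp_log hfp, ← Real.exp_add]
        conv_rhs => rw [← Real.exp_log hC]
        exact Real.exp_le_exp.2 (by linarith)
      exact (mul_le_mul_of_nonneg_right (isMinOn_iff.1 hmin p ⟨hpa, hpb⟩)
        (Real.exp_pos _).le).trans h4
    · have h4 : C ≤ f p * Real.exp K := by
        rw [← Real.exp_log hfp, ← Real.exp_add]
        conv_lhs => rw [← Real.exp_log hC]
        exact Real.exp_le_exp.2 (by linarith)
      exact h4.trans (mul_le_mul_of_nonneg_right (isMaxOn_iff.1 hmax p ⟨hpa, hpb⟩)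
        (Real.exp_pos _).le)
  refine ⟨(f p₂ * Real.exp K)⁻¹, (f p₁ * Real.exp (-K))⁻¹, by positivity, fun p hpa hpb => ?_⟩
  obtain ⟨C, hC, hleast, h1, h2⟩ := key p hpa hpb
  constructor
  · refine ⟨C⁻¹, inv_pos.2 hC, ?_⟩
    rw [inv_inv]
    exact hleast
  · rintro S ⟨hS, hSl⟩
    have e : S⁻¹ = C := hSl.unique hleast
    have e' : S = C⁻¹ := by rw [← e, inv_inv]
    rw [e']
    constructor
    · exact inv_anti₀ hC h2
    · exact inv_anti₀ (by positivity) h1

end Pool.Agent.H36.HB
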